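import Pool.Agent.Run7.h928.NAdicAvg

/-!
# The average `N`-adic complexity of finite sequences is `n / 2 + O(1)`

For all `N ≥ 2` and all `n` the average `E_n^fin` of the `N`-adic complexity over the `N ^ n`
sequences of length `n` satisfies `|E_n^fin - n / 2| ≤ (ω(N) + 2) / log_2 N`, where `ω(N)` is the
number of distinct prime factors of `N`.

Proof. The pairs `(f, g)` with `f ≡ g α` modulo `M = N ^ n` form a lattice of index `M`; let `ℓ(α)`
be its first minimum for the sup norm.  For fixed `g ≤ B` a packing argument shows that at most
`3 B` classes `α` have `g α ∈ [-B, B]`, so at most `3 B ^ 2` classes have `ℓ(α) ≤ B`; hence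
`∑ 1 / ℓ(α) ≤ 4 √M` and the mean of `log ℓ(α)` is at least `log M / 2 - 2 log 2`.  The complexity of
a word is at least `log_N ℓ(α)`.  For the upper bound, a second basis vector has norm at most
`M / ℓ(α)`, and by Kanold's bound on the Jacobsthal function one of `2 ^ ω(N)` consecutive
translates of it by multiples of the first one has second coordinate coprime to `N`; so the
complexity is at most `log_N (2 ^ ω(N) M / ℓ(α))`.
-/

set_option autoImplicit false

namespace Pool.Agent.Results.MP_68df70_lc.AverageFinite

/-- `|E_n^fin - n / 2| ≤ (ω(N) + 2) / log_2 N` for all `N ≥ 2` and all `n`. -/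
theorem result : ∀ N : ℕ, 2 ≤ N → ∀ n : ℕ,
    |Run7.h928.NAdic.averageFinite N n - (n : ℝ) / 2| ≤
      ((N.primeFactors.card : ℝ) + 2) / Real.logb 2 N :=
  fun N hN n => Run7.h928.NAdic.average_bound N hN n

end Pool.Agent.Results.MP_68df70_lc.AverageFinite
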